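import Mathlib

/-!
# MP_071a69_co: the wheel `W_7` is a geodesic Leech graph
-/

namespace Pool.Agent.Results.MP_071a69_co.WheelSeven

open SimpleGraph

/-- The geodesic paths of `G`, each recorded by its edge set (so a path and its reverse agree). -/
def geodesics {V : Type} [DecidableEq V] (G : SimpleGraph V) : Set (Finset (Sym2 V)) :=
  {s | ∃ (u v : V) (p : G.Walk u v), p.IsPath ∧ 0 < p.length ∧ p.length = G.dist u v ∧
    s = p.edges.toFinset}

/-- `G` has a positive edge labeling whose geodesic weights are exactly `1, …, t_gp(G)`. -/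
def GeodesicLeech {V : Type} [DecidableEq V] (G : SimpleGraph V) : Prop :=
  ∃ f : Sym2 V → ℕ, (∀ e ∈ G.edgeSet, 0 < f e) ∧
    (fun s => ∑ e ∈ s, f e) '' geodesics G = Set.Icc 1 (geodesics G).ncard

/-- The wheel `W_n`: hub `0` and rim cycle `1, 2, …, n - 1`. -/
def wheel (n : ℕ) : SimpleGraph (Fin n) where
  Adj a b := a ≠ b ∧ (a.val = 0 ∨ b.val = 0 ∨ a.val + 1 = b.val ∨ b.val + 1 = a.val ∨
    (a.val = 1 ∧ b.val + 1 = n) ∨ (b.val = 1 ∧ a.val + 1 = n))
  symm := ⟨fun _ _ h => ⟨h.1.symm, by tauto⟩⟩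
  loopless := ⟨fun _ h => h.1 rfl⟩

instance : DecidableRel (wheel 7).Adj := fun a b => by unfold wheel; infer_instance

def lab : Fin 7 → Fin 7 → ℕ :=
  ![![0, 1, 2, 3, 8, 12, 19], ![1, 0, 5, 0, 0, 0, 20], ![2, 5, 0, 11, 0, 0, 0],
    ![3, 0, 11, 0, 7, 0, 0], ![8, 0, 0, 7, 0, 17, 0], ![12, 0, 0, 0, 17, 0, 6],
    ![19, 20, 0, 0, 0, 6, 0]]

def f : Sym2 (Fin 7) → ℕ := Sym2.lift ⟨lab, by decide⟩

def T : Finset (Finset (Sym2 (Fin 7))) :=
  ((Finset.univ.filter fun p : Fin 7 × Fin 7 => (wheel 7).Adj p.1 p.2).image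
    fun p => {s(p.1, p.2)}) ∪
  ((Finset.univ.filter fun p : Fin 7 × Fin 7 × Fin 7 => (wheel 7).Adj p.1 p.2.1 ∧
    (wheel 7).Adj p.2.1 p.2.2 ∧ p.1 ≠ p.2.2 ∧ ¬ (wheel 7).Adj p.1 p.2.2).image
    fun p => {s(p.1, p.2.1), s(p.2.1, p.2.2)})

theorem dist_le (u v : Fin 7) : (wheel 7).dist u v ≤ 2 := by
  rcases (by decide : ∀ u v : Fin 7, u = v ∨ (wheel 7).Adj u v ∨
    ((wheel 7).Adj u 0 ∧ (wheel 7).Adj 0 v)) u v with rfl | h | ⟨h1, h2⟩
  · simp
  · rw [dist_eq_one_iff_adj.2 h]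
    omega
  · exact SimpleGraph.dist_le (.cons h1 (.cons h2 .nil))

theorem geo_eq : geodesics (wheel 7) = ↑T := by
  ext s
  simp only [geodesics, T, Set.mem_setOf_eq, Finset.mem_coe, Finset.mem_union, Finset.mem_image,
    Finset.mem_filter, Finset.mem_univ, true_and]
  constructor
  · rintro ⟨u, v, p, -, h0, hd, rfl⟩
    have h2 := dist_le u v
    match p, h0, hd with
    | .cons h .nil, _, _ => exact Or.inl ⟨(u, v), h, by simp⟩
    | .cons (v := w) h (.cons h' .nil), _, hd =>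
      refine Or.inr ⟨(u, w, v), ⟨h, h', ?_, fun ha => ?_⟩, by simp⟩
      · intro e
        have h3 : (wheel 7).dist u v = 0 := by rw [show u = v from e, dist_self]
        rw [h3] at hd
        simp at hd
      · rw [dist_eq_one_iff_adj.2 ha] at hd
        simp at hd
    | .cons _ (.cons _ (.cons _ _)), _, hd =>
      simp only [Walk.length_cons] at hd
      omega
  · rintro (⟨⟨u, v⟩, h, rfl⟩ | ⟨⟨u, w, v⟩, ⟨h, h', hne, hn⟩, rfl⟩)
    · exact ⟨u, v, .cons h .nil, by simp [h.ne], by simp, by simp [dist_eq_one_iff_adj.2 h], by simp⟩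
    · have h1 := Reachable.one_lt_dist_of_ne_of_not_adj (h.reachable.trans h'.reachable) hne hn
      have h2 := dist_le u v
      refine ⟨u, v, .cons h (.cons h' .nil), by simp [h.ne, h'.ne, hne], by simp, ?_, by simp⟩
      simp only [Walk.length_cons, Walk.length_nil] at h1 ⊢
      omega

theorem calcT : T.card = 27 ∧ T.image (fun s => ∑ e ∈ s, f e) = Finset.Icc 1 27 := by
  decide +kernel

/-- The wheel `W_7` is a geodesic Leech graph. -/
theorem result : GeodesicLeech (wheel 7) := by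
  refine ⟨f, fun e => ?_, ?_⟩
  · induction e using Sym2.ind with
    | h a b => exact (by decide : ∀ a b, (wheel 7).Adj a b → 0 < lab a b) a b
  · rw [geo_eq, Set.ncard_coe_finset, calcT.1, ← Finset.coe_image, calcT.2, Finset.coe_Icc]

end Pool.Agent.Results.MP_071a69_co.WheelSeven
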